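import Pool.Agent.H724.ST.Stm

set_option autoImplicit false

namespace Pool.Agent.H691.STV
open Pool.Agent.H724.ST

theorem stp_app {L : List Bool → List Bool → Prop} {u v u' v' : List Bool}
    (h : StP L u v) (h' : StP L u' v') : StP L (u ++ u') (v ++ v') := by
  induction h with
  | nil => simpa using h'
  | cons hl _ ih =>
    rw [List.append_assoc, List.append_assoc]
    exact StP.cons hl ih

theorem stp_one {L : List Bool → List Bool → Prop} {u v : List Bool} (h : L u v) : StP L u v := by
  have := StP.cons h StP.nil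
  simpa using this

theorem stp_left {C : Chk} (h1 : S_PC) (hC : WF C) (x : ℕ → ℕ) (i : ℕ)
    (hx : ∀ k, k < i → x k < C.p) : StP (Lp C) (blks C x i) [] := by
  induction i with
  | zero => exact StP.nil
  | succ i ih =>
    have a := ih (fun k hk => hx k (by omega))
    have b := stp_one ((h1 C hC).1 (x i) (hx i (by omega))).1
    have := stp_app a b
    simpa [blks] using this

theorem stp_right {C : Chk} (h1 : S_PC) (hC : WF C) (x : ℕ → ℕ) (i : ℕ)
    (hx : ∀ k, k < i → x k < C.p) : StP (Lp C) [] (blks C x i) := by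
  induction i with
  | zero => exact StP.nil
  | succ i ih =>
    have a := ih (fun k hk => hx k (by omega))
    have b := stp_one ((h1 C hC).1 (x i) (hx i (by omega))).2
    have := stp_app a b
    simpa [blks] using this

theorem key (C : Chk) (a q : ℕ) (w : List Bool) (h1 : 1 ≤ q) (h2 : q ≤ C.N) :
    rn (q - 1) ++ (rn ((a + 1) * (C.N + 1) - q) ++ true :: w) =
      rn ((a + 1) * (C.N + 1) - 1) ++ true :: w := by
  have e : rn ((a + 1) * (C.N + 1) - 1) = rn (q - 1) ++ rn ((a + 1) * (C.N + 1) - q) := by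
    unfold rn
    rw [← List.replicate_add]
    congr 1
    have : (C.N + 1) ≤ (a + 1) * (C.N + 1) := Nat.le_mul_of_pos_left _ (by omega)
    omega
  rw [e, List.append_assoc]

theorem key1 (C : Chk) (x : ℕ → ℕ) (m q : ℕ) (w : List Bool) (h1 : 1 ≤ q) (h2 : q ≤ C.N) :
    (blks C x m ++ rn (q - 1)) ++ (rn ((x m + 1) * (C.N + 1) - q) ++ true :: false :: w) =
      blks C x (m + 1) ++ w := by
  rw [List.append_assoc, key C (x m) q _ h1 h2]
  simp [blks, blk]

theorem claim {C : Chk} (h1 : S_PC) (hC : WF C) (x y : ℕ → ℕ) (i j t : ℕ)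
    (hx : ∀ k, k < i + t → x k < C.p) (hy : ∀ k, k < j + t → y k < C.p)
    (hr : ∀ s, s ≤ t → run C x y i j s ≠ 0) :
    run C x y i j t ≤ C.N ∧
    StP (Lp C) (blks C x (i + t) ++ rn (run C x y i j t - 1))
      (blks C y (j + t) ++ rn (run C x y i j t - 1)) := by
  induction t with
  | zero =>
    refine ⟨by simpa [run] using hC.hN, ?_⟩
    have := stp_app (stp_left h1 hC x i (fun k hk => hx k (by omega)))
      (stp_right h1 hC y j (fun k hk => hy k (by omega)))
    simpa [run, rn] using this
  | succ t ih =>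
    obtain ⟨hq2, hs⟩ := ih (fun k hk => hx k (by omega)) (fun k hk => hy k (by omega))
      (fun s hs => hr s (by omega))
    have h0 := hr t (by omega)
    have h0' := hr (t + 1) le_rfl
    set q := run C x y i j t with hq
    have e : run C x y i j (t + 1) = C.dl q (x (i + t)) (y (j + t)) := by
      rw [run, if_neg h0]
    have e1 : 1 ≤ C.dl q (x (i + t)) (y (j + t)) := by rw [← e]; omega
    have p := ((h1 C hC).2.2.1 q (x (i + t)) (y (j + t)) (C.dl q (x (i + t)) (y (j + t)))
      (by omega) hq2 (hx _ (by omega)) (hy _ (by omega)) e1 (Or.inr rfl))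
    have r : rn (C.dl q (x (i + t)) (y (j + t))) =
        false :: rn (C.dl q (x (i + t)) (y (j + t)) - 1) := by
      obtain ⟨n, hn⟩ : ∃ n, C.dl q (x (i + t)) (y (j + t)) = n + 1 := ⟨_, (Nat.sub_add_cancel e1).symm⟩
      rw [hn]; simp [rn, List.replicate_succ]
    refine ⟨by rw [e]; exact hC.hd _ _ _, ?_⟩
    have w := stp_app hs (stp_one p)
    rw [r, key1 C x (i + t) q _ (by omega) hq2, key1 C y (j + t) q _ (by omega) hq2] at w
    rw [e]
    exact w

theorem vio (h1 : Pool.Agent.H724.ST.S_PC) : Pool.Agent.H724.ST.S_VIO := by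
  intro C hC x y i j t hx hy h0
  classical
  -- minimal t
  have ex : ∃ t, run C x y i j t = 0 := ⟨t, h0⟩
  have hm := Nat.find_spec ex
  have hmin : ∀ s, s < Nat.find ex → run C x y i j s ≠ 0 := fun s hs => Nat.find_min ex hs
  have hle : Nat.find ex ≤ t := Nat.find_min' ex h0
  set t0 := Nat.find ex with ht0
  have hx' : ∀ k, k < i + t → x k < C.p := fun k hk => (hx.1 k hk).1
  have hy' : ∀ k, k < j + t → y k < C.p := fun k hk => (hy.1 k hk).1
  obtain ⟨t1, ht1⟩ : ∃ t1, t0 = t1 + 1 := by
    rcases Nat.eq_zero_or_pos t0 with h | h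
    · rw [h] at hm; simp [run] at hm
    · exact ⟨t0 - 1, by omega⟩
  obtain ⟨hq2, hs⟩ := claim h1 hC x y i j t1 (fun k hk => hx' k (by omega))
    (fun k hk => hy' k (by omega)) (fun s hs => hmin s (by omega))
  have hne : run C x y i j t1 ≠ 0 := hmin t1 (by omega)
  have hd : C.dl (run C x y i j t1) (x (i + t1)) (y (j + t1)) = 0 := by
    rw [ht1, run, if_neg hne] at hm
    exact hm
  have base : ∀ z z', StP (Lp C) (blks C x (i + t0) ++ z) (blks C y (j + t0) ++ z') := by
    intro z z'
    have p := (h1 C hC).2.2.2 (run C x y i j t1) (x (i + t1)) (y (j + t1)) (false :: z) (false :: z')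
      (by omega) hq2 (hx' _ (by omega)) (hy' _ (by omega)) hd
    have w := stp_app hs (stp_one p)
    rw [key1 C x (i + t1) _ _ (by omega) hq2, key1 C y (j + t1) _ _ (by omega) hq2] at w
    rw [ht1]
    exact w
  have ext : ∀ (x : ℕ → ℕ) (m n : ℕ), m ≤ n → ∃ w, blks C x n = blks C x m ++ w := by
    intro x m n hmn
    induction n, hmn using Nat.le_induction with
    | base => exact ⟨[], by simp⟩
    | succ n _ ih =>
      obtain ⟨w, hw⟩ := ih
      exact ⟨w ++ blk C (x n), by rw [blks, hw, List.append_assoc]⟩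
  intro z z'
  obtain ⟨w, hw⟩ := ext x (i + t0) (i + t) (by omega)
  obtain ⟨w', hw'⟩ := ext y (j + t0) (j + t) (by omega)
  rw [hw, hw', List.append_assoc, List.append_assoc]
  exact base _ _

end Pool.Agent.H691.STV
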